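import Pool.Agent.H174.GP.StA
import Pool.Agent.H174.GP.StP
import Pool.Agent.H174.GP.StC

open MeasureTheory ProbabilityTheory Finset Filter Topology

namespace Pool.Agent.H977.GP174

open Pool.Agent.H174.GP

theorem tq_meas (h9 : S_Tq) {a : ℝ} (ha : 0 < a) : Measurable (fun x => (Tq a x : ℝ)) :=
  (measurable_from_top (f := fun n : ℤ => (n : ℝ))).comp (h9 a ha).2.2.2.1

theorem cs_split (y : ℕ → ℝ) (L B k : ℕ) (hL : L ≤ B) (hk : k ≤ L) :
    Cs y B k = Cs y L k + k * ∑ j ∈ Finset.Ioc L B, y j := by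
  unfold Cs
  have h1 : ∀ n : ℕ, Finset.Icc 1 n = Finset.Ioc 0 n := by
    intro n
    ext j
    simp only [Finset.mem_Icc, Finset.mem_Ioc]
    omega
  rw [h1, h1, ← Finset.sum_Ioc_consecutive _ (Nat.zero_le L) hL, Finset.mul_sum]
  have h2 : ∑ j ∈ Finset.Ioc L B, ((min j k : ℕ) : ℝ) * y j = ∑ j ∈ Finset.Ioc L B, (k : ℝ) * y j := by
    apply Finset.sum_congr rfl
    intro j hj
    rw [Finset.mem_Ioc] at hj
    rw [min_eq_right (by omega)]
  rw [h2]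

theorem cg_meas (h9 : S_Tq) {σ : ℝ} (hσ : 0 < σ) (B k : ℕ) :
    Measurable (fun ω => Cg σ ω B k) := by
  unfold Cg Cs
  refine Finset.measurable_sum _ (fun j hj => ?_)
  rw [Finset.mem_Icc] at hj
  have hj0 : (0 : ℝ) < σ * j := mul_pos hσ (by exact_mod_cast hj.1)
  exact ((tq_meas h9 hj0).comp (measurable_pi_apply j)).const_mul _

theorem cg_mono (h9 : S_Tq) {σ : ℝ} (hσ : 0 < σ) (B k : ℕ) {ω ω' : ℕ → ℝ} (h : ω ≤ ω') :
    Cg σ ω B k ≤ Cg σ ω' B k := by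
  unfold Cg Cs
  refine Finset.sum_le_sum (fun j hj => ?_)
  rw [Finset.mem_Icc] at hj
  have hj0 : (0 : ℝ) < σ * j := mul_pos hσ (by exact_mod_cast hj.1)
  refine mul_le_mul_of_nonneg_left ?_ (Nat.cast_nonneg _)
  exact Int.cast_le.2 ((h9 _ hj0).2.2.1 (h j))

theorem cg_dep (σ : ℝ) (B k : ℕ) {ω ω' : ℕ → ℝ} (h : ∀ j ∈ Finset.Icc 1 B, ω j = ω' j) :
    Cg σ ω B k = Cg σ ω' B k := by
  unfold Cg Cs geo
  exact Finset.sum_congr rfl (fun j hj => by simp only [h j hj])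

theorem ev_meas (h9 : S_Tq) {σ : ℝ} (hσ : 0 < σ) (B : ℕ) (X : Finset ℕ) (t : ℕ → ℝ) :
    MeasurableSet {ω : ℕ → ℝ | ∀ k ∈ X, t k ≤ Cg σ ω B k} := by
  have h1 : {ω : ℕ → ℝ | ∀ k ∈ X, t k ≤ Cg σ ω B k} = ⋂ k ∈ X, {ω | t k ≤ Cg σ ω B k} := by
    ext ω
    simp only [Set.mem_ofPred_eq, Set.mem_iInter]
  rw [h1]
  exact Finset.measurableSet_biInter _
    (fun k _ => measurableSet_le measurable_const (cg_meas h9 hσ B k))

theorem ev_upper (h9 : S_Tq) {σ : ℝ} (hσ : 0 < σ) (B : ℕ) (X : Finset ℕ) (t : ℕ → ℝ) :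
    IsUpperSet {ω : ℕ → ℝ | ∀ k ∈ X, t k ≤ Cg σ ω B k} :=
  fun _ _ h hω k hk => le_trans (hω k hk) (cg_mono h9 hσ B k h)

theorem ev_dep (σ : ℝ) (B : ℕ) (X : Finset ℕ) (t : ℕ → ℝ) :
    DepOn (Finset.Icc 1 B) {ω : ℕ → ℝ | ∀ k ∈ X, t k ≤ Cg σ ω B k} := by
  intro ω ω' h hω k hk
  rw [← cg_dep σ B k h]
  exact hω k hk

theorem harris3 (h8 : S_harrisN) (I : Finset ℕ) (F0 F1 F2 : Set (ℕ → ℝ))
    (m0 : MeasurableSet F0) (m1 : MeasurableSet F1) (m2 : MeasurableSet F2)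
    (d0 : DepOn I F0) (d1 : DepOn I F1) (d2 : DepOn I F2)
    (u0 : IsUpperSet F0) (u1 : IsUpperSet F1) (u2 : IsUpperSet F2) :
    PP.real F0 * PP.real F1 * PP.real F2 ≤ PP.real (F0 ∩ F1 ∩ F2) := by
  obtain ⟨F, hF⟩ : ∃ F : ℕ → Set (ℕ → ℝ), F = fun i => if i = 0 then F0 else if i = 1 then F1 else F2 :=
    ⟨_, rfl⟩
  have e0 : F 0 = F0 := by rw [hF]; simp
  have e1 : F 1 = F1 := by rw [hF]; simp
  have e2 : F 2 = F2 := by rw [hF]; simp
  have hcase : ∀ P : Set (ℕ → ℝ) → Prop, P F0 → P F1 → P F2 → ∀ i ∈ Finset.range 3, P (F i) := by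
    intro P p0 p1 p2 i hi
    rw [Finset.mem_range] at hi
    rcases (by omega : i = 0 ∨ i = 1 ∨ i = 2) with rfl | rfl | rfl
    · rw [e0]; exact p0
    · rw [e1]; exact p1
    · rw [e2]; exact p2
  have h := h8 I (Finset.range 3) F (hcase (fun A => MeasurableSet A) m0 m1 m2)
    (hcase (fun A => DepOn I A) d0 d1 d2) (hcase (fun A => IsUpperSet A) u0 u1 u2)
  rw [Finset.prod_range_succ, Finset.prod_range_succ, Finset.prod_range_one, e0, e1, e2] at h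
  refine le_trans h (measureReal_mono ?_)
  intro ω hω
  simp only [Set.mem_iInter] at hω
  refine ⟨⟨?_, ?_⟩, ?_⟩
  · rw [← e0]; exact hω 0 (by simp)
  · rw [← e1]; exact hω 1 (by simp)
  · rw [← e2]; exact hω 2 (by simp)

theorem uu_pos (h6 : S_half) (h8 : S_harrisN) (L : ℕ) : 0 < uu L := by
  have h := h8 (Finset.Icc 1 L) (Finset.Icc 1 L) (fun j => {ω : ℕ → ℝ | 0 ≤ ω j})
    (fun j _ => measurableSet_le measurable_const (measurable_pi_apply j))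
    (fun j hj ω ω' hω h0 => by
      have h1 : 0 ≤ ω j := h0
      rw [hω j hj] at h1
      exact h1)
    (fun j _ ω ω' hω h0 => le_trans h0 (hω j))
  have h2 : ∀ j ∈ Finset.Icc 1 L, (1 / 2 : ℝ) ≤ PP.real {ω : ℕ → ℝ | 0 ≤ ω j} := by
    intro j _
    have h3 := h6 {j} (fun _ x => x) (fun _ _ => measurable_id) (fun _ _ _ => rfl)
    simp only [Finset.sum_singleton] at h3
    exact h3
  have h3 : (1 / 2 : ℝ) ^ L ≤ ∏ j ∈ Finset.Icc 1 L, PP.real {ω : ℕ → ℝ | 0 ≤ ω j} := by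
    calc (1 / 2 : ℝ) ^ L = ∏ _j ∈ Finset.Icc 1 L, (1 / 2 : ℝ) := by
          rw [Finset.prod_const, Nat.card_Icc, Nat.add_sub_cancel]
      _ ≤ _ := Finset.prod_le_prod (fun _ _ => by norm_num) h2
  have h4 : PP.real (⋂ j ∈ Finset.Icc 1 L, {ω : ℕ → ℝ | 0 ≤ ω j}) ≤ uu L := by
    unfold uu
    refine measureReal_mono ?_
    intro ω hω x _
    simp only [Set.mem_iInter, Set.mem_ofPred_eq] at hω
    unfold Ch Cs
    exact Finset.sum_nonneg (fun j hj =>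
      mul_nonneg (Nat.cast_nonneg _) (div_nonneg (hω j hj) (Nat.cast_nonneg _)))
  exact lt_of_lt_of_le (by positivity) (h3.trans (h.trans h4))

theorem uu_lower (h6 : S_half) (h8 : S_harrisN) {θ e : ℝ} (hθ : IsTheta θ) (he : 0 < e) :
    ∀ᶠ L : ℕ in atTop, (L : ℝ) ^ (-(θ + e)) ≤ uu L := by
  have h1 : ∀ᶠ L : ℕ in atTop, -Real.log (uu L) / Real.log L < θ + e :=
    hθ.eventually_lt_const (by linarith)
  filter_upwards [h1, eventually_ge_atTop 2] with L h hL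
  have hL1 : (1 : ℝ) < L := by
    have : (2 : ℝ) ≤ L := by exact_mod_cast hL
    linarith
  have hlog : 0 < Real.log L := Real.log_pos hL1
  rw [div_lt_iff₀ hlog] at h
  have hup := uu_pos h6 h8 L
  have hL0 : (0 : ℝ) < L := by linarith
  rw [← Real.log_le_log_iff (Real.rpow_pos_of_pos hL0 _) hup, Real.log_rpow hL0]
  linarith

theorem f0_lower (h4 : S_float) (h5 : S_shiftC) {σ e : ℝ} (L : ℕ) (t : ℝ) (hσ : 0 < σ)
    (he0 : 0 < e) (he1 : e ≤ 1) (hL : 1 ≤ L) (ht : 0 ≤ t)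
    (hcond : σ * (Real.sqrt L * (1 + Real.sqrt L * t)) ≤ e / 4) :
    (uu L) ^ (1 + e) * Real.exp (-((4 / e) * ((e / 4) ^ 2 * (1 + Real.log L))))
      - 2 * L * Real.exp (-(t ^ 2 / 2)) ≤ PP.real {ω | ∀ k ∈ Finset.Icc 1 L, (k : ℝ) ≤ Cg σ ω L k} := by
  have hs := h5 e (e / 4) L (Finset.Icc 1 L) (fun _ => 0) he0 he1 (by linarith) le_rfl hL
    (Finset.Subset.refl _)
  have hf := h4 σ L t hσ hL ht
  have hsub : {ω : ℕ → ℝ | ∀ x ∈ Finset.Icc 1 L, (0 : ℝ) + e / 4 * Real.sqrt x ≤ Ch ω L x} ⊆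
      {ω | ∀ k ∈ Finset.Icc 1 L, (k : ℝ) ≤ Cg σ ω L k} ∪
      {ω | ∃ x ∈ Finset.Icc 1 L, x * Real.sqrt L * t ≤ |Cg σ ω L x - Ch ω L x / σ|} := by
    intro ω hω
    by_contra hcon
    rw [Set.mem_union, not_or] at hcon
    apply hcon.1
    intro k hk
    have h1 : (0 : ℝ) + e / 4 * Real.sqrt k ≤ Ch ω L k := hω k hk
    have h2 : |Cg σ ω L k - Ch ω L k / σ| < k * Real.sqrt L * t := by
      by_contra h3
      push Not at h3
      exact hcon.2 ⟨k, hk, h3⟩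
    rw [Finset.mem_Icc] at hk
    have hk0 : (0 : ℝ) ≤ k := Nat.cast_nonneg _
    have hkL : (k : ℝ) ≤ L := by exact_mod_cast hk.2
    have h3 : Real.sqrt k ≤ Real.sqrt L := Real.sqrt_le_sqrt hkL
    have h4' : Real.sqrt k * Real.sqrt k = k := Real.mul_self_sqrt hk0
    have hsk : 0 ≤ Real.sqrt k := Real.sqrt_nonneg _
    have hsL : 0 ≤ Real.sqrt L := Real.sqrt_nonneg _
    have h5' : (k : ℝ) * (1 + Real.sqrt L * t) ≤ Ch ω L k / σ := by
      rw [le_div_iff₀ hσ]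
      have hpos : 0 ≤ 1 + Real.sqrt L * t := by positivity
      calc (k : ℝ) * (1 + Real.sqrt L * t) * σ
          = Real.sqrt k * (σ * (Real.sqrt k * (1 + Real.sqrt L * t))) := by
            have h6 : Real.sqrt k * (σ * (Real.sqrt k * (1 + Real.sqrt L * t))) =
                Real.sqrt k * Real.sqrt k * (σ * (1 + Real.sqrt L * t)) := by ring
            rw [h6, h4']
            ring
        _ ≤ Real.sqrt k * (σ * (Real.sqrt L * (1 + Real.sqrt L * t))) := by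
            apply mul_le_mul_of_nonneg_left _ hsk
            apply mul_le_mul_of_nonneg_left _ hσ.le
            exact mul_le_mul_of_nonneg_right h3 hpos
        _ ≤ Real.sqrt k * (e / 4) := mul_le_mul_of_nonneg_left hcond hsk
        _ ≤ Ch ω L k := by linarith
    have h6' := (abs_lt.1 h2).1
    linarith
  have hmono : PP.real {ω : ℕ → ℝ | ∀ x ∈ Finset.Icc 1 L, (0 : ℝ) + e / 4 * Real.sqrt x ≤ Ch ω L x} ≤
      PP.real {ω | ∀ k ∈ Finset.Icc 1 L, (k : ℝ) ≤ Cg σ ω L k} + 2 * L * Real.exp (-(t ^ 2 / 2)) :=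
    le_trans (measureReal_mono hsub) (le_trans (measureReal_union_le _ _) (by linarith))
  have hs' : (uu L) ^ (1 + e) * Real.exp (-((4 / e) * ((e / 4) ^ 2 * (1 + Real.log L)))) ≤
      PP.real {ω : ℕ → ℝ | ∀ x ∈ Finset.Icc 1 L, (0 : ℝ) + e / 4 * Real.sqrt x ≤ Ch ω L x} := hs
  linarith

theorem f0_half (h6 : S_half) (h7 : S_indep) (h9 : S_Tq) {σ : ℝ} (hσ : 0 < σ) (L B : ℕ)
    (hLB : L ≤ B) :
    PP.real {ω | ∀ k ∈ Finset.Icc 1 L, (k : ℝ) ≤ Cg σ ω L k} * (1 / 2) ≤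
      PP.real {ω | ∀ k ∈ Finset.Icc 1 L, (k : ℝ) ≤ Cg σ ω B k} := by
  have hpos : ∀ j ∈ Finset.Ioc L B, (0 : ℝ) < σ * j := by
    intro j hj
    rw [Finset.mem_Ioc] at hj
    exact mul_pos hσ (by exact_mod_cast (by omega : 0 < j))
  have hG := h6 (Finset.Ioc L B) (fun j x => (Tq (σ * j) x : ℝ))
    (fun j hj => tq_meas h9 (hpos j hj))
    (fun j hj x => by
      rw [(h9 _ (hpos j hj)).2.1 x]
      push_cast
      rfl)
  have hdisj : Disjoint (Finset.Icc 1 L) (Finset.Ioc L B) := by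
    rw [Finset.disjoint_left]
    intro j h1 h2
    rw [Finset.mem_Icc] at h1
    rw [Finset.mem_Ioc] at h2
    omega
  have hmG : MeasurableSet {ω : ℕ → ℝ | 0 ≤ ∑ j ∈ Finset.Ioc L B, (Tq (σ * j) (ω j) : ℝ)} := by
    refine measurableSet_le measurable_const (Finset.measurable_sum _ (fun j hj => ?_))
    exact (tq_meas h9 (hpos j hj)).comp (measurable_pi_apply j)
  have hi := h7 (Finset.Icc 1 L) (Finset.Ioc L B)
    {ω | ∀ k ∈ Finset.Icc 1 L, (k : ℝ) ≤ Cg σ ω L k}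
    {ω : ℕ → ℝ | 0 ≤ ∑ j ∈ Finset.Ioc L B, (Tq (σ * j) (ω j) : ℝ)} hdisj
    (ev_meas h9 hσ L _ _) hmG (ev_dep σ L _ _) (by
      intro ω ω' h hω
      have h1 : 0 ≤ ∑ j ∈ Finset.Ioc L B, (Tq (σ * j) (ω j) : ℝ) := hω
      have h2 : ∑ j ∈ Finset.Ioc L B, (Tq (σ * j) (ω j) : ℝ) =
          ∑ j ∈ Finset.Ioc L B, (Tq (σ * j) (ω' j) : ℝ) :=
        Finset.sum_congr rfl (fun j hj => by rw [h j hj])
      rw [h2] at h1
      exact h1)
  have hsub : {ω | ∀ k ∈ Finset.Icc 1 L, (k : ℝ) ≤ Cg σ ω L k} ∩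
      {ω : ℕ → ℝ | 0 ≤ ∑ j ∈ Finset.Ioc L B, (Tq (σ * j) (ω j) : ℝ)} ⊆
      {ω | ∀ k ∈ Finset.Icc 1 L, (k : ℝ) ≤ Cg σ ω B k} := by
    rintro ω ⟨h1, h2⟩ k hk
    have h3 : (k : ℝ) ≤ Cg σ ω L k := h1 k hk
    have h4 : 0 ≤ ∑ j ∈ Finset.Ioc L B, (geo σ ω j : ℝ) := h2
    have h5 : Cg σ ω B k = Cg σ ω L k + k * ∑ j ∈ Finset.Ioc L B, (geo σ ω j : ℝ) :=
      cs_split _ L B k hLB (Finset.mem_Icc.1 hk).2
    rw [h5]
    have h6 : 0 ≤ (k : ℝ) * ∑ j ∈ Finset.Ioc L B, (geo σ ω j : ℝ) :=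
      mul_nonneg (Nat.cast_nonneg _) h4
    linarith
  have h1 := measureReal_mono (μ := PP) hsub
  rw [hi] at h1
  refine le_trans ?_ h1
  exact mul_le_mul_of_nonneg_left hG measureReal_nonneg

theorem ev_exp {c : ℝ} (hc : 0 < c) (K : ℝ) : ∀ᶠ x : ℝ in atTop, K ≤ Real.exp (c * x) :=
  (Real.tendsto_exp_atTop.comp (tendsto_id.const_mul_atTop hc)).eventually_ge_atTop K

theorem ev_exp_neg {c b : ℝ} (hc : 0 < c) (hb : 0 < b) :
    ∀ᶠ x : ℝ in atTop, Real.exp (-(c * x)) ≤ b := by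
  filter_upwards [ev_exp hc (1 / b)] with x hx
  rw [Real.exp_neg]
  rw [div_le_iff₀ hb] at hx
  rw [inv_le_comm₀ (Real.exp_pos _) hb, ← one_div, div_le_iff₀ hb]
  exact hx

theorem f0_num {θ e x : ℝ} {L : ℕ} (hθ0 : 0 ≤ θ) (he0 : 0 < e) (he1 : e ≤ 1) (hx : 0 ≤ x)
    (hL : 1 ≤ L) (hLx : (L : ℝ) ≤ Real.exp x) (hu : (L : ℝ) ^ (-(θ + e)) ≤ uu L) :
    Real.exp (-(((θ + e) * (1 + e) + e) * x) - 1) ≤
      (uu L) ^ (1 + e) * Real.exp (-((4 / e) * ((e / 4) ^ 2 * (1 + Real.log L)))) := by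
  have hL0 : (0 : ℝ) < L := by exact_mod_cast hL
  have hlogL : Real.log L ≤ x := by
    have := Real.log_le_log hL0 hLx
    rwa [Real.log_exp] at this
  have h1 : Real.exp (x * -(θ + e)) ≤ uu L := by
    rw [Real.exp_mul]
    exact le_trans (Real.rpow_le_rpow_of_nonpos hL0 hLx (by linarith)) hu
  have h2 : Real.exp (x * -(θ + e) * (1 + e)) ≤ (uu L) ^ (1 + e) := by
    rw [Real.exp_mul]
    exact Real.rpow_le_rpow (Real.exp_pos _).le h1 (by linarith)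
  have h3 : Real.exp (-(1 + e * x)) ≤
      Real.exp (-((4 / e) * ((e / 4) ^ 2 * (1 + Real.log L)))) := by
    apply Real.exp_le_exp.2
    have h4 : (4 / e) * ((e / 4) ^ 2 * (1 + Real.log L)) = e / 4 * (1 + Real.log L) := by
      field_simp
    rw [h4]
    have h5 : e / 4 * (1 + Real.log L) ≤ e / 4 * (1 + x) :=
      mul_le_mul_of_nonneg_left (by linarith) (by linarith)
    have h6 : 0 ≤ e * x := mul_nonneg he0.le hx
    linarith
  have h4 : Real.exp (-(((θ + e) * (1 + e) + e) * x) - 1) =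
      Real.exp (x * -(θ + e) * (1 + e)) * Real.exp (-(1 + e * x)) := by
    rw [← Real.exp_add]
    ring_nf
  rw [h4]
  exact mul_le_mul h2 h3 (Real.exp_pos _).le (le_trans (Real.exp_pos _).le h2)

theorem tail_num {M x : ℝ} {L : ℕ} (hx1 : 2 * (M + 1) + 2 ≤ x) (hx4 : 4 ≤ x)
    (hLx : (L : ℝ) ≤ Real.exp x) :
    2 * L * Real.exp (-(x ^ 2 / 2)) ≤ 1 / 2 * Real.exp (-(M * x) - 1) := by
  have h1 : Real.exp x * Real.exp (-(x ^ 2 / 2)) ≤ Real.exp (-(M * x) - 1) * Real.exp (-3) := by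
    rw [← Real.exp_add, ← Real.exp_add]
    apply Real.exp_le_exp.2
    nlinarith
  have h2 : Real.exp (-3) ≤ 1 / 4 := by
    rw [Real.exp_neg, inv_le_comm₀ (Real.exp_pos _) (by norm_num)]
    have := Real.add_one_le_exp (3 : ℝ)
    linarith
  have h3 : (L : ℝ) * Real.exp (-(x ^ 2 / 2)) ≤ Real.exp x * Real.exp (-(x ^ 2 / 2)) :=
    mul_le_mul_of_nonneg_right hLx (Real.exp_pos _).le
  have h4 : Real.exp (-(M * x) - 1) * Real.exp (-3) ≤ Real.exp (-(M * x) - 1) * (1 / 4) :=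
    mul_le_mul_of_nonneg_left h2 (Real.exp_pos _).le
  linarith

theorem gp_pls (h1 : S_big) (h2 : S_crude) (h3 : S_AdmGeo) (h4 : S_float) (h5 : S_shiftC)
    (h6 : S_half) (h7 : S_indep) (h8 : S_harrisN) (h9 : S_Tq) : Pool.Agent.H174.GP.S_PLs := by
  intro θ s1 s2 ε η R hθ0 hθ hs1 hs2 hε hη0 hη1 hR
  obtain ⟨cv, hcv, Cv, hCv, κ, hκ, hAdm⟩ := h3 s2 hs2
  have hsη : 0 < Real.sqrt (η / 2) := Real.sqrt_pos.2 (by linarith)
  obtain ⟨c1, hc1, L0, hbig⟩ :=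
    h1 cv Cv κ (R * s2 / Real.sqrt (η / 2)) hcv hCv hκ (by positivity)
  obtain ⟨c2, hc2, κ1, hκ1, δ0, hδ0, hcrude⟩ := h2 cv Cv κ hcv hCv hκ
  obtain ⟨e, he0, he1, he2⟩ : ∃ e : ℝ, 0 < e ∧ e ≤ 1 / 2 ∧ e * (θ + 3 + κ1) ≤ ε / 2 :=
    ⟨min (1 / 2) (ε / 2 / (θ + 3 + κ1)), lt_min (by norm_num) (by positivity), min_le_left _ _, by
      have hp : 0 < θ + 3 + κ1 := by linarith
      calc min (1 / 2) (ε / 2 / (θ + 3 + κ1)) * (θ + 3 + κ1)
          ≤ (ε / 2 / (θ + 3 + κ1)) * (θ + 3 + κ1) :=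
            mul_le_mul_of_nonneg_right (min_le_right _ _) hp.le
        _ = ε / 2 := by field_simp⟩
  obtain ⟨N0, hN0⟩ := eventually_atTop.1 (uu_lower h6 h8 hθ he0)
  obtain ⟨M, hM⟩ : ∃ M : ℝ, M = (θ + e) * (1 + e) + e := ⟨_, rfl⟩
  obtain ⟨C0, hC0⟩ : ∃ C0 : ℝ, C0 = 1 / 4 * Real.exp (-1) * (c2 * (1 / 2 : ℝ) ^ κ1) * c1 := ⟨_, rfl⟩
  have hC0pos : 0 < C0 := by rw [hC0]; positivity
  have hev : ∀ᶠ x : ℝ in atTop, (2 / η ≤ Real.exp (1 * x) ∧ Real.exp (-(e * x)) ≤ η ∧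
      2 ≤ Real.exp ((1 - e) * x) ∧ (N0 : ℝ) ≤ Real.exp ((1 - e) * x)) ∧
      (L0 / η ≤ Real.exp (1 * x) ∧ s2 / δ0 ≤ Real.exp (1 / 2 * x) ∧
      Real.exp (-(e / 2 * x)) ≤ e / 4 * (e / 2) / s2) ∧
      (2 * (M + 1) + 2 ≤ x ∧ 4 ≤ x ∧ Real.exp (-(ε / 2 * x)) ≤ C0) := by
    refine ((ev_exp one_pos _).and ((ev_exp_neg he0 hη0).and ((ev_exp (by linarith) _).and
      (ev_exp (by linarith) _)))).and (((ev_exp one_pos _).and ((ev_exp (by norm_num) _).and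
      (ev_exp_neg (by linarith) (by positivity)))).and
      ((eventually_ge_atTop _).and ((eventually_ge_atTop _).and
      (ev_exp_neg (by linarith) hC0pos))))
  have hev2 := (Real.tendsto_log_atTop.comp tendsto_natCast_atTop_atTop).eventually hev
  obtain ⟨d0, hd0⟩ := eventually_atTop.1 (hev2.and (eventually_ge_atTop 1))
  refine ⟨d0, fun d hd σ hσ hσ1 hσ2 => ?_⟩
  obtain ⟨⟨⟨a1, a2, a3, a4⟩, ⟨a5, a6, a7⟩, ⟨a8, a9, a10⟩⟩, hd1⟩ := hd0 d hd
  simp only [Function.comp_apply] at a1 a2 a3 a4 a5 a6 a7 a8 a9 a10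
  have hdpos : (0 : ℝ) < d := by exact_mod_cast hd1
  have hdx : Real.exp (Real.log d) = d := Real.exp_log hdpos
  obtain ⟨x, hx⟩ : ∃ x : ℝ, x = Real.log d := ⟨_, rfl⟩
  rw [← hx] at a1 a2 a3 a4 a5 a6 a7 a8 a9 a10 hdx
  rw [one_mul, hdx] at a1 a5
  have hx0 : 0 ≤ x := by linarith
  obtain ⟨B, hB⟩ : ∃ B : ℕ, B = ⌊η * d⌋₊ := ⟨_, rfl⟩
  obtain ⟨L, hL⟩ : ∃ L : ℕ, L = ⌊Real.exp ((1 - e) * x)⌋₊ := ⟨_, rfl⟩
  have hL2 : (L : ℝ) ≤ Real.exp ((1 - e) * x) := by rw [hL]; exact Nat.floor_le (Real.exp_pos _).le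
  have hL3 : Real.exp ((1 - e) * x) < L + 1 := by rw [hL]; exact Nat.lt_floor_add_one _
  have hL1 : 1 ≤ L := by
    rw [hL]
    apply Nat.le_floor
    push_cast
    linarith
  have hLN : N0 ≤ L := by rw [hL]; exact Nat.le_floor a4
  have hLhalf : Real.exp ((1 - e) * x) / 2 ≤ L := by linarith
  have hexp1 : Real.exp ((1 - e) * x) = Real.exp (-(e * x)) * d := by
    rw [← hdx, ← Real.exp_add]
    ring_nf
  have hηd2 : 2 ≤ η * d := by
    rw [div_le_iff₀ hη0] at a1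
    linarith
  have hLB : L ≤ B := by
    rw [hL, hB]
    apply Nat.floor_le_floor
    rw [hexp1]
    exact mul_le_mul_of_nonneg_right a2 hdpos.le
  have hBd1 : (B : ℝ) ≤ η * d := by rw [hB]; exact Nat.floor_le (by positivity)
  have hBd : (B : ℝ) ≤ d := by nlinarith
  have hBhalf : η / 2 * d ≤ B := by
    have : η * d < B + 1 := by rw [hB]; exact Nat.lt_floor_add_one _
    linarith
  have hB0 : (0 : ℝ) < B := by
    have : 0 < η / 2 * d := by positivity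
    linarith
  have hL0B : L0 ≤ B := by
    rw [hB]
    apply Nat.le_floor
    rw [div_le_iff₀ hη0] at a5
    linarith
  have hLx : (L : ℝ) ≤ Real.exp x := by
    rw [hdx]
    exact le_trans (by exact_mod_cast hLB) hBd
  have hσB : σ * B ≤ s2 := le_trans (mul_le_mul_of_nonneg_left hBd hσ.le) hσ2
  have hadm := hAdm σ B hσ hσB
  have hsd : 0 < Real.sqrt d := Real.sqrt_pos.2 hdpos
  have hsdd : Real.sqrt d * Real.sqrt d = d := Real.mul_self_sqrt hdpos.le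
  -- the third event
  have hF2 : c1 ≤ PP.real {ω | ∀ k ∈ ({B} : Finset ℕ), R * (d : ℝ) ^ (3 / 2 : ℝ) ≤ Cg σ ω B k} := by
    refine le_trans (hbig _ _ B hadm hL0B) (measureReal_mono ?_)
    intro ω hω k hk
    rw [Finset.mem_singleton] at hk
    subst hk
    have h10 : R * s2 / Real.sqrt (η / 2) * (1 / σ) * Real.sqrt k ≤
        ∑ j ∈ Finset.Icc 1 k, (j : ℝ) * (Tq (σ * j) (ω j) : ℝ) := hω
    have h11 : Cg σ ω k k = ∑ j ∈ Finset.Icc 1 k, (j : ℝ) * (Tq (σ * j) (ω j) : ℝ) := by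
      unfold Cg Cs
      apply Finset.sum_congr rfl
      intro j hj
      rw [Finset.mem_Icc] at hj
      rw [min_eq_left hj.2]
      rfl
    rw [h11]
    refine le_trans ?_ h10
    have h12 : (d : ℝ) ^ (3 / 2 : ℝ) = d * Real.sqrt d := by
      rw [Real.sqrt_eq_rpow, show (3 / 2 : ℝ) = 1 + 1 / 2 by norm_num, Real.rpow_add hdpos,
        Real.rpow_one]
    have h13 : Real.sqrt (η / 2) * Real.sqrt d ≤ Real.sqrt k := by
      rw [← Real.sqrt_mul (by linarith)]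
      exact Real.sqrt_le_sqrt hBhalf
    have h14 : (d : ℝ) / s2 ≤ 1 / σ := by
      rw [div_le_div_iff₀ hs2 hσ]
      linarith
    rw [h12]
    calc R * (d * Real.sqrt d)
        = R * s2 / Real.sqrt (η / 2) * (d / s2) * (Real.sqrt (η / 2) * Real.sqrt d) := by
          field_simp
      _ ≤ R * s2 / Real.sqrt (η / 2) * (1 / σ) * Real.sqrt k := by
          apply mul_le_mul _ h13 (by positivity) (by positivity)
          exact mul_le_mul_of_nonneg_left h14 (by positivity)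
  -- the second event
  have hF1 : c2 * ((L : ℝ) / B) ^ κ1 ≤
      PP.real {ω | ∀ k ∈ Finset.Icc L B, (k : ℝ) ≤ Cg σ ω B k} := by
    refine le_trans (hcrude _ _ B L B hadm hL1 hLB le_rfl) (measureReal_mono ?_)
    intro ω hω k hk
    have h10 : δ0 * (1 / σ) * Real.sqrt k ≤ Cg σ ω B k := hω k hk
    refine le_trans ?_ h10
    have hkd : (k : ℝ) ≤ d := by
      have : (k : ℝ) ≤ B := by exact_mod_cast (Finset.mem_Icc.1 hk).2
      linarith
    have hk0 : (0 : ℝ) ≤ k := Nat.cast_nonneg _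
    have h11 : Real.sqrt k ≤ Real.sqrt d := Real.sqrt_le_sqrt hkd
    have h12 : Real.sqrt k * Real.sqrt k = k := Real.mul_self_sqrt hk0
    have h13 : σ * Real.sqrt d ≤ δ0 := by
      have h14 : s2 / δ0 ≤ Real.sqrt d := by
        rw [show (1 / 2 : ℝ) * x = x / 2 by ring, Real.exp_half, hdx] at a6
        exact a6
      rw [div_le_iff₀ hδ0] at h14
      have h15 : σ * Real.sqrt d * Real.sqrt d ≤ δ0 * Real.sqrt d := by
        rw [mul_assoc, hsdd]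
        linarith
      exact le_of_mul_le_mul_right h15 hsd
    have h16 : σ * Real.sqrt k ≤ δ0 := le_trans (mul_le_mul_of_nonneg_left h11 hσ.le) h13
    have h17 : δ0 * (1 / σ) * Real.sqrt k = δ0 * Real.sqrt k / σ := by ring
    rw [h17, le_div_iff₀ hσ]
    calc (k : ℝ) * σ = (σ * Real.sqrt k) * Real.sqrt k := by
          rw [mul_assoc, h12]
          ring
      _ ≤ δ0 * Real.sqrt k := mul_le_mul_of_nonneg_right h16 (Real.sqrt_nonneg _)
  -- the first event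
  have hF0' : 1 / 2 * Real.exp (-(M * x) - 1) ≤
      PP.real {ω | ∀ k ∈ Finset.Icc 1 L, (k : ℝ) ≤ Cg σ ω L k} := by
    have hcond : σ * (Real.sqrt L * (1 + Real.sqrt L * x)) ≤ e / 4 := by
      have hLr : (1 : ℝ) ≤ L := by exact_mod_cast hL1
      have h10 : Real.sqrt L * Real.sqrt L = L := Real.mul_self_sqrt (by linarith)
      have h11 : Real.sqrt L ≤ L := by
        have h12 : 1 ≤ Real.sqrt L := Real.one_le_sqrt.2 hLr
        nlinarith
      have h12 : Real.sqrt L * (1 + Real.sqrt L * x) ≤ Real.exp ((1 - e) * x) * (1 + x) := by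
        calc Real.sqrt L * (1 + Real.sqrt L * x)
            = Real.sqrt L + Real.sqrt L * Real.sqrt L * x := by ring
          _ = Real.sqrt L + L * x := by rw [h10]
          _ ≤ L + L * x := by linarith
          _ = L * (1 + x) := by ring
          _ ≤ Real.exp ((1 - e) * x) * (1 + x) :=
            mul_le_mul_of_nonneg_right hL2 (by linarith)
      have h13 : 1 + x ≤ 2 / e * Real.exp (e / 2 * x) := by
        have h14 := Real.add_one_le_exp (e / 2 * x)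
        have h15 : 2 / e * (e / 2 * x + 1) = x + 2 / e := by
          field_simp
        have h16 : 1 ≤ 2 / e := by
          rw [le_div_iff₀ he0]
          linarith
        have h17 : 2 / e * (e / 2 * x + 1) ≤ 2 / e * Real.exp (e / 2 * x) :=
          mul_le_mul_of_nonneg_left h14 (by positivity)
        linarith
      have h18 : Real.exp (-(e * x)) * (1 + x) ≤ 2 / e * Real.exp (-(e / 2 * x)) := by
        calc Real.exp (-(e * x)) * (1 + x)
            ≤ Real.exp (-(e * x)) * (2 / e * Real.exp (e / 2 * x)) :=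
              mul_le_mul_of_nonneg_left h13 (Real.exp_pos _).le
          _ = 2 / e * (Real.exp (-(e * x)) * Real.exp (e / 2 * x)) := by ring
          _ = 2 / e * Real.exp (-(e / 2 * x)) := by
              rw [← Real.exp_add]
              ring_nf
      calc σ * (Real.sqrt L * (1 + Real.sqrt L * x))
          ≤ σ * (Real.exp ((1 - e) * x) * (1 + x)) := mul_le_mul_of_nonneg_left h12 hσ.le
        _ = σ * d * (Real.exp (-(e * x)) * (1 + x)) := by rw [hexp1]; ring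
        _ ≤ s2 * (2 / e * Real.exp (-(e / 2 * x))) :=
            mul_le_mul hσ2 h18 (mul_nonneg (Real.exp_pos _).le (by linarith)) hs2.le
        _ ≤ s2 * (2 / e * (e / 4 * (e / 2) / s2)) := by
            apply mul_le_mul_of_nonneg_left _ hs2.le
            exact mul_le_mul_of_nonneg_left a7 (by positivity)
        _ = e / 4 := by field_simp
    have h10 := f0_lower h4 h5 L x hσ he0 (by linarith) hL1 hx0 hcond
    have h11 := f0_num hθ0 he0 (by linarith) hx0 hL1 hLx (hN0 L hLN)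
    have h12 := tail_num a8 a9 hLx
    rw [← hM] at h11
    linarith
  have hF0 : 1 / 4 * Real.exp (-(M * x) - 1) ≤
      PP.real {ω | ∀ k ∈ Finset.Icc 1 L, (k : ℝ) ≤ Cg σ ω B k} := by
    refine le_trans ?_ (f0_half h6 h7 h9 hσ L B hLB)
    linarith
  have hF1' : c2 * ((1 / 2 : ℝ) ^ κ1 * Real.exp (-(e * κ1 * x))) ≤
      PP.real {ω | ∀ k ∈ Finset.Icc L B, (k : ℝ) ≤ Cg σ ω B k} := by
    refine le_trans (mul_le_mul_of_nonneg_left ?_ hc2.le) hF1
    have h10 : 1 / 2 * Real.exp (-(e * x)) ≤ (L : ℝ) / B := by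
      rw [le_div_iff₀ hB0]
      calc 1 / 2 * Real.exp (-(e * x)) * B ≤ 1 / 2 * Real.exp (-(e * x)) * d :=
            mul_le_mul_of_nonneg_left hBd (by positivity)
        _ = Real.exp ((1 - e) * x) / 2 := by rw [hexp1]; ring
        _ ≤ L := hLhalf
    have h11 : (1 / 2 : ℝ) ^ κ1 * Real.exp (-(e * κ1 * x)) =
        (1 / 2 * Real.exp (-(e * x))) ^ κ1 := by
      rw [Real.mul_rpow (by norm_num) (Real.exp_pos _).le, ← Real.exp_mul]
      ring_nf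
    rw [h11]
    exact Real.rpow_le_rpow (by positivity) h10 hκ1.le
  have hhar := harris3 h8 (Finset.Icc 1 B) _ _ _
    (ev_meas h9 hσ B (Finset.Icc 1 L) (fun k => (k : ℝ)))
    (ev_meas h9 hσ B (Finset.Icc L B) (fun k => (k : ℝ)))
    (ev_meas h9 hσ B ({B} : Finset ℕ) (fun _ => R * (d : ℝ) ^ (3 / 2 : ℝ)))
    (ev_dep σ B (Finset.Icc 1 L) (fun k => (k : ℝ)))
    (ev_dep σ B (Finset.Icc L B) (fun k => (k : ℝ)))
    (ev_dep σ B ({B} : Finset ℕ) (fun _ => R * (d : ℝ) ^ (3 / 2 : ℝ)))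
    (ev_upper h9 hσ B (Finset.Icc 1 L) (fun k => (k : ℝ)))
    (ev_upper h9 hσ B (Finset.Icc L B) (fun k => (k : ℝ)))
    (ev_upper h9 hσ B ({B} : Finset ℕ) (fun _ => R * (d : ℝ) ^ (3 / 2 : ℝ)))
  rw [← hB]
  have hprod : 1 / 4 * Real.exp (-(M * x) - 1) *
      (c2 * ((1 / 2 : ℝ) ^ κ1 * Real.exp (-(e * κ1 * x)))) * c1 ≤
      PP.real {ω | ∀ k ∈ Finset.Icc 1 L, (k : ℝ) ≤ Cg σ ω B k} *
      PP.real {ω | ∀ k ∈ Finset.Icc L B, (k : ℝ) ≤ Cg σ ω B k} *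
      PP.real {ω | ∀ k ∈ ({B} : Finset ℕ), R * (d : ℝ) ^ (3 / 2 : ℝ) ≤ Cg σ ω B k} := by
    apply mul_le_mul _ hF2 hc1.le (mul_nonneg measureReal_nonneg measureReal_nonneg)
    exact mul_le_mul hF0 hF1' (by positivity) measureReal_nonneg
  have hfin : (d : ℝ) ^ (-θ - ε) ≤ 1 / 4 * Real.exp (-(M * x) - 1) *
      (c2 * ((1 / 2 : ℝ) ^ κ1 * Real.exp (-(e * κ1 * x)))) * c1 := by
    have h10 : (d : ℝ) ^ (-θ - ε) = Real.exp (-(ε / 2 * x)) * Real.exp (-((θ + ε / 2) * x)) := by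
      rw [Real.rpow_def_of_pos hdpos, ← hx, ← Real.exp_add]
      ring_nf
    have h11 : 1 / 4 * Real.exp (-(M * x) - 1) *
        (c2 * ((1 / 2 : ℝ) ^ κ1 * Real.exp (-(e * κ1 * x)))) * c1 =
        C0 * (Real.exp (-(M * x)) * Real.exp (-(e * κ1 * x))) := by
      rw [hC0, sub_eq_add_neg, Real.exp_add]
      ring
    rw [h10, h11]
    apply mul_le_mul a10 _ (Real.exp_pos _).le hC0pos.le
    rw [← Real.exp_add]
    apply Real.exp_le_exp.2
    have h12 : M + e * κ1 ≤ θ + ε / 2 := by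
      rw [hM]
      nlinarith
    nlinarith [mul_le_mul_of_nonneg_right h12 hx0]
  refine le_trans hfin (le_trans hprod (le_trans hhar (measureReal_mono ?_)))
  rintro ω ⟨⟨g0, g1⟩, g2⟩
  refine ⟨fun k hk => ?_, g2 B (Finset.mem_singleton_self B)⟩
  rw [Finset.mem_Icc] at hk
  rcases le_total k L with h | h
  · exact g0 k (Finset.mem_Icc.2 ⟨hk.1, h⟩)
  · exact g1 k (Finset.mem_Icc.2 ⟨h, hk.2⟩)

end Pool.Agent.H977.GP174
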