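import Pool.Agent.H174.GP.StA

open MeasureTheory ProbabilityTheory Finset

namespace Pool.Agent.H977.GP174

open Pool.Agent.H174.GP

theorem lap_integrable : Integrable (fun x : ℝ => Real.exp (-|x|) / 2) := by
  have h1 : (∫ x : ℝ, Real.exp (-|x|) / 2) = 1 := by
    have h2 : (∫ x : ℝ, (fun y : ℝ => Real.exp (-y) / 2) |x|) = 2 * ∫ x in Set.Ioi (0:ℝ), (fun y : ℝ => Real.exp (-y) / 2) x :=
      integral_comp_abs (f := fun y : ℝ => Real.exp (-y) / 2)
    simp only at h2
    rw [h2, integral_div, integral_exp_neg_Ioi_zero]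
    norm_num
  by_contra hcon
  rw [integral_undef hcon] at h1
  norm_num at h1

theorem lap_real_eq (s : Set ℝ) (hs : MeasurableSet s) :
    lap.real s = ∫ x in s, Real.exp (-|x|) / 2 := by
  unfold lap Measure.real
  rw [withDensity_apply _ hs,
    ← ofReal_integral_eq_lintegral_ofReal lap_integrable.integrableOn
      (Filter.Eventually.of_forall (fun x => by positivity)),
    ENNReal.toReal_ofReal (integral_nonneg (fun x => by positivity))]

theorem int_pos (u v : ℝ) (hu : 0 ≤ u) (huv : u ≤ v) :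
    ∫ x in u..v, Real.exp (-|x|) / 2 = (Real.exp (-u) - Real.exp (-v)) / 2 := by
  have h1 : ∫ x in u..v, Real.exp (-|x|) / 2 = ∫ x in u..v, Real.exp (-x) / 2 := by
    apply intervalIntegral.integral_congr
    intro x hx
    rw [Set.uIcc_of_le huv] at hx
    simp only
    rw [abs_of_nonneg (le_trans hu hx.1)]
  rw [h1]
  have h2 : ∀ x ∈ Set.uIcc u v, HasDerivAt (fun x : ℝ => -Real.exp (-x) / 2) (Real.exp (-x) / 2) x := by
    intro x _
    have h3 : HasDerivAt (fun x : ℝ => Real.exp (-x)) (Real.exp (-x) * (-1)) x :=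
      (Real.hasDerivAt_exp (-x)).comp x (hasDerivAt_neg x)
    have h4 := (h3.neg).div_const 2
    have e : -(Real.exp (-x) * -1) / 2 = Real.exp (-x) / 2 := by ring
    rw [e] at h4
    exact h4
  rw [intervalIntegral.integral_eq_sub_of_hasDerivAt h2
    (Continuous.intervalIntegrable (by fun_prop) _ _)]
  ring

theorem int_neg (u v : ℝ) (hu : 0 ≤ u) (huv : u ≤ v) :
    ∫ x in (-v)..(-u), Real.exp (-|x|) / 2 = (Real.exp (-u) - Real.exp (-v)) / 2 := by
  rw [← int_pos u v hu huv, ← intervalIntegral.integral_comp_neg]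
  apply intervalIntegral.integral_congr
  intro x _
  simp only [abs_neg]

theorem lap_Ico (u v : ℝ) (hu : 0 ≤ u) (huv : u ≤ v) :
    lap.real (Set.Ico u v) = (Real.exp (-u) - Real.exp (-v)) / 2 := by
  rw [lap_real_eq _ measurableSet_Ico, ← int_pos u v hu huv, intervalIntegral.integral_of_le huv,
    integral_Ico_eq_integral_Ioo, integral_Ioc_eq_integral_Ioo]

theorem lap_Ioc (u v : ℝ) (hu : 0 ≤ u) (huv : u ≤ v) :
    lap.real (Set.Ioc (-v) (-u)) = (Real.exp (-u) - Real.exp (-v)) / 2 := by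
  rw [lap_real_eq _ measurableSet_Ioc, ← int_neg u v hu huv,
    intervalIntegral.integral_of_le (neg_le_neg huv)]

theorem lap_Ioo (v : ℝ) (hv : 0 ≤ v) :
    lap.real (Set.Ioo (-v) v) = 1 - Real.exp (-v) := by
  rw [lap_real_eq _ measurableSet_Ioo, ← integral_Ioc_eq_integral_Ioo,
    ← intervalIntegral.integral_of_le (by linarith)]
  have hi : ∀ p q : ℝ, IntervalIntegrable (fun x : ℝ => Real.exp (-|x|) / 2) volume p q :=
    fun p q => Continuous.intervalIntegrable (by fun_prop) _ _
  rw [← intervalIntegral.integral_add_adjacent_intervals (hi (-v) 0) (hi 0 v)]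
  have h1 := int_neg 0 v le_rfl hv
  have h2 := int_pos 0 v le_rfl hv
  rw [neg_zero] at h1
  rw [h1, h2]
  simp only [neg_zero, Real.exp_zero]
  ring

theorem exp_cq (a : ℝ) (ha : 0 < a) : Real.exp (a * cq a) = 2 / (1 + Real.exp (-a)) := by
  unfold cq
  rw [mul_div_cancel₀ _ ha.ne', Real.exp_log (by positivity)]

theorem cq_nonneg (a : ℝ) (ha : 0 < a) : 0 ≤ cq a := by
  unfold cq
  apply div_nonneg _ ha.le
  apply Real.log_nonneg
  rw [le_div_iff₀ (by positivity)]
  have := Real.exp_le_one_iff.2 (by linarith : -a ≤ 0)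
  linarith

theorem cq_lt_one (a : ℝ) (ha : 0 < a) : cq a < 1 := by
  have h1 : Real.exp (a * cq a) < Real.exp a := by
    rw [exp_cq a ha, div_lt_iff₀ (by positivity)]
    have h2 : Real.exp a * Real.exp (-a) = 1 := by
      rw [← Real.exp_add]; simp
    have h3 : 1 < Real.exp a := Real.one_lt_exp_iff.2 ha
    nlinarith
  have h2 := Real.exp_lt_exp.1 h1
  by_contra hcon
  push Not at hcon
  nlinarith

theorem floor_iff (a y : ℝ) (m : ℤ) (ha : 0 < a) :
    ⌊y / a + cq a⌋ = m ↔ a * (m - cq a) ≤ y ∧ y < a * (m + 1 - cq a) := by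
  rw [Int.floor_eq_iff]
  constructor
  · rintro ⟨h1, h2⟩
    constructor
    · have : (m : ℝ) - cq a ≤ y / a := by linarith
      rw [le_div_iff₀ ha] at this
      linarith
    · have : y / a < (m : ℝ) + 1 - cq a := by linarith
      rw [div_lt_iff₀ ha] at this
      linarith
  · rintro ⟨h1, h2⟩
    constructor
    · have : (m : ℝ) - cq a ≤ y / a := by
        rw [le_div_iff₀ ha]
        linarith
      linarith
    · have : y / a < (m : ℝ) + 1 - cq a := by
        rw [div_lt_iff₀ ha]
        linarith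
      linarith

theorem floor_nonneg' (a y : ℝ) (ha : 0 < a) (hy : 0 ≤ y) : 0 ≤ ⌊y / a + cq a⌋ :=
  Int.floor_nonneg.2 (add_nonneg (div_nonneg hy ha.le) (cq_nonneg a ha))

theorem set_pos (a : ℝ) (k : ℤ) (ha : 0 < a) (hk : 1 ≤ k) :
    {x | Tq a x = k} = Set.Ico (a * (k - cq a)) (a * (k + 1 - cq a)) := by
  have hk' : (1 : ℝ) ≤ k := by exact_mod_cast hk
  have hc := cq_lt_one a ha
  ext x
  simp only [Set.mem_setOf_eq, Set.mem_Ico]
  unfold Tq
  split_ifs with hx
  · exact floor_iff a x k ha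
  · push Not at hx
    have h1 := floor_nonneg' a (-x) ha (by linarith)
    constructor
    · intro h
      omega
    · rintro ⟨h2, _⟩
      have : 0 < a * (k - cq a) := mul_pos ha (by linarith)
      linarith

theorem set_neg (a : ℝ) (k : ℤ) (ha : 0 < a) (hk : 1 ≤ k) :
    {x | Tq a x = -k} = Set.Ioc (-(a * (k + 1 - cq a))) (-(a * (k - cq a))) := by
  have hk' : (1 : ℝ) ≤ k := by exact_mod_cast hk
  have hc := cq_lt_one a ha
  ext x
  simp only [Set.mem_setOf_eq, Set.mem_Ioc]
  unfold Tq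
  have hpos : 0 < a * (k - cq a) := mul_pos ha (by linarith)
  split_ifs with hx
  · have h1 := floor_nonneg' a x ha hx
    constructor
    · intro h
      omega
    · rintro ⟨_, h2⟩
      linarith
  · rw [neg_inj, floor_iff a (-x) k ha]
    constructor
    · rintro ⟨h1, h2⟩
      exact ⟨by linarith, by linarith⟩
    · rintro ⟨h1, h2⟩
      exact ⟨by linarith, by linarith⟩

theorem set_zero (a : ℝ) (ha : 0 < a) :
    {x | Tq a x = 0} = Set.Ioo (-(a * (1 - cq a))) (a * (1 - cq a)) := by
  have hc := cq_lt_one a ha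
  have hc0 := cq_nonneg a ha
  have hac : 0 ≤ a * cq a := mul_nonneg ha.le hc0
  ext x
  simp only [Set.mem_setOf_eq, Set.mem_Ioo]
  unfold Tq
  split_ifs with hx
  · rw [floor_iff a x 0 ha]
    simp only [Int.cast_zero]
    constructor
    · rintro ⟨_, h2⟩
      have hpos : 0 < a * (1 - cq a) := mul_pos ha (by linarith)
      exact ⟨by linarith, by linarith⟩
    · rintro ⟨_, h2⟩
      exact ⟨by linarith, by linarith⟩
  · push Not at hx
    rw [neg_eq_zero, floor_iff a (-x) 0 ha]
    simp only [Int.cast_zero]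
    constructor
    · rintro ⟨_, h2⟩
      have hpos : 0 < a * (1 - cq a) := mul_pos ha (by linarith)
      exact ⟨by linarith, by linarith⟩
    · rintro ⟨h1, _⟩
      exact ⟨by linarith, by linarith⟩

theorem mass (a : ℝ) (k : ℤ) (ha : 0 < a) :
    (Real.exp (-(a * (k - cq a))) - Real.exp (-(a * (k + 1 - cq a)))) / 2 =
      (1 - Real.exp (-a)) / (1 + Real.exp (-a)) * Real.exp (-(a * k)) := by
  have e1 : -(a * (k - cq a)) = a * cq a + -(a * k) := by ring
  have e2 : -(a * (k + 1 - cq a)) = a * cq a + (-a + -(a * k)) := by ring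
  rw [e1, e2, Real.exp_add, Real.exp_add, Real.exp_add, exp_cq a ha]
  have : (1 + Real.exp (-a)) ≠ 0 := by positivity
  field_simp

theorem gp_tqlaw : Pool.Agent.H174.GP.S_Tqlaw := by
  intro a k ha
  have hc := cq_lt_one a ha
  rcases lt_trichotomy k 0 with hk | hk | hk
  · obtain ⟨m, rfl⟩ : ∃ m : ℤ, k = -m := ⟨-k, by ring⟩
    have hm : 1 ≤ m := by omega
    have hm' : (1 : ℝ) ≤ m := by exact_mod_cast hm
    rw [set_neg a m ha hm, lap_Ioc _ _ (mul_nonneg ha.le (by linarith))
      (mul_le_mul_of_nonneg_left (by linarith) ha.le), mass a m ha, abs_neg,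
      abs_of_nonneg (by omega : 0 ≤ m)]
  · subst hk
    rw [set_zero a ha, lap_Ioo _ (mul_nonneg ha.le (by linarith))]
    have e2 : -(a * (1 - cq a)) = a * cq a + (-a) := by ring
    rw [e2, Real.exp_add, exp_cq a ha]
    have : (1 + Real.exp (-a)) ≠ 0 := by positivity
    simp only [abs_zero, Int.cast_zero, mul_zero, neg_zero, Real.exp_zero, mul_one]
    field_simp
    ring
  · have hk1 : 1 ≤ k := hk
    have hk' : (1 : ℝ) ≤ k := by exact_mod_cast hk1
    rw [set_pos a k ha hk1, lap_Ico _ _ (mul_nonneg ha.le (by linarith))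
      (mul_le_mul_of_nonneg_left (by linarith) ha.le), mass a k ha,
      abs_of_nonneg (by omega : 0 ≤ k)]

end Pool.Agent.H977.GP174
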