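import Pool.Agent.H174.GP.StD
import Pool.Agent.H174.GP.StP
import Pool.Agent.H164.GP174.decomp
import Pool.Agent.H922.GP174.aalaw

/-! # Project GP: `S_supJ` (helper977) -/

open MeasureTheory ProbabilityTheory Finset PowerSeries

namespace Pool.Agent.H977.GP174

open Pool.Agent.H174.GP Pool.Agent.H164.GP174.decomp

lemma supJ_meas (σ : ℝ) (j n : ℕ) : MeasurableSet {x : ℝ | j * ⌊|x| / (σ * j)⌋₊ = n} := by
  have h : Measurable fun x : ℝ => j * ⌊|x| / (σ * j)⌋₊ :=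
    (Nat.measurable_floor.comp (continuous_abs.measurable.div_const (σ * j))).const_mul j
  exact h (measurableSet_singleton n)

lemma supJ_lap (h1 : S_L3) {σ : ℝ} (hσ : 0 < σ) {j : ℕ} (hj : 1 ≤ j) (n : ℕ) :
    lap.real {x : ℝ | j * ⌊|x| / (σ * j)⌋₊ = n} = coeff n (gg (σ / 2) j) := by
  have hjr : (1 : ℝ) ≤ j := by exact_mod_cast hj
  have hb : 0 < σ * j := by positivity
  rw [coeff_gg]
  by_cases hd : j ∣ n
  · rw [if_pos hd]
    obtain ⟨k, rfl⟩ := hd
    have hs : {x : ℝ | j * ⌊|x| / (σ * j)⌋₊ = j * k} = {x : ℝ | ⌊|x| / (σ * j)⌋₊ = k} := by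
      ext x
      constructor
      · intro h
        exact Nat.eq_of_mul_eq_mul_left hj h
      · intro h
        have h' : ⌊|x| / (σ * j)⌋₊ = k := h
        show j * ⌊|x| / (σ * j)⌋₊ = j * k
        rw [h']
    rw [hs, Pool.Agent.H922.GP174.geom h1 (σ * j) hb k]
    unfold rr
    have e1 : 2 * (σ / 2) * (j : ℝ) = σ * j := by ring
    have e2 : 2 * (σ / 2) * ((j * k : ℕ) : ℝ) = σ * j * k := by push_cast; ring
    rw [e1, e2]
  · rw [if_neg hd]
    have hs : {x : ℝ | j * ⌊|x| / (σ * j)⌋₊ = n} = ∅ := by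
      refine Set.eq_empty_iff_forall_notMem.2 fun x h => hd ?_
      have h' : j * ⌊|x| / (σ * j)⌋₊ = n := h
      exact ⟨_, h'.symm⟩
    rw [hs, measureReal_empty]

/-- the law of a finite sum is at most (in fact equal to) the convolution -/
lemma supJ_law (h1 : S_L3) {σ : ℝ} (hσ : 0 < σ) (J : Finset ℕ) (hJ : ∀ j ∈ J, 1 ≤ j) (n : ℕ) :
    PP.real {ω : ℕ → ℝ | ∑ j ∈ J, j * gs σ ω j = n} ≤ coeff n (∏ j ∈ J, gg (σ / 2) j) := by
  classical
  have hsub : {ω : ℕ → ℝ | ∑ j ∈ J, j * gs σ ω j = n} ⊆ ⋃ l ∈ finsuppAntidiag J n,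
      Set.pi (J : Set ℕ) (fun j : ℕ => {x : ℝ | j * ⌊|x| / (σ * j)⌋₊ = l j}) := by
    intro ω hω
    have hω' : ∑ j ∈ J, j * gs σ ω j = n := hω
    refine Set.mem_iUnion₂.2 ⟨Finsupp.onFinset J (fun j => if j ∈ J then j * gs σ ω j else 0)
      (fun j hj => ?_), ?_, ?_⟩
    · by_contra hc
      exact hj (if_neg hc)
    · rw [mem_finsuppAntidiag]
      refine ⟨?_, Finsupp.support_onFinset_subset⟩
      rw [← hω']
      refine Finset.sum_congr rfl fun j hj => ?_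
      rw [Finsupp.onFinset_apply, if_pos hj]
    · intro j hj
      show j * ⌊|ω j| / (σ * j)⌋₊ = (if j ∈ J then j * gs σ ω j else 0)
      rw [if_pos (Finset.mem_coe.1 hj)]
      rfl
  refine (measureReal_mono hsub (measure_ne_top _ _)).trans ?_
  refine (measureReal_biUnion_finset_le _ _).trans ?_
  rw [coeff_prod]
  refine Finset.sum_le_sum fun l _ => ?_
  unfold Measure.real PP
  rw [Measure.infinitePi_pi _ (fun j _ => supJ_meas _ _ _), ENNReal.toReal_prod]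
  refine le_of_eq (Finset.prod_congr rfl fun j hj => ?_)
  exact supJ_lap h1 hσ (hJ j hj) (l j)

/-- factorisation with an arbitrary factor `R` -/
lemma supJ_total (σ : ℝ) (D : ℕ) (R : PowerSeries ℝ) :
    gg σ 1 * R * ∏ i ∈ PS D, (gg σ i * gg σ (i + D)) =
      ∑ I ∈ (PS D).powerset, ((∏ i ∈ I, (C (pp σ D i) * X ^ i)) * (∏ i ∈ PS D \ I, YY σ D i) * R) *
        (TT σ D ^ I.card * gg σ 1) := by
  have h2 : ∏ i ∈ PS D, (gg σ i * gg σ (i + D)) =
      ∏ i ∈ PS D, (C (pp σ D i) * X ^ i * TT σ D + YY σ D i) := by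
    apply Finset.prod_congr rfl
    intro i _
    rw [YY]; ring
  rw [h2, Finset.prod_add, Finset.mul_sum]
  apply Finset.sum_congr rfl
  intro I _
  rw [Finset.prod_mul_distrib (s := I), Finset.prod_const]
  ring

lemma supJ_MB {σ : ℝ} (hσ : 0 < σ) {D : ℕ} (hD : 1 ≤ D) (R : PowerSeries ℝ) (hR : MB R 1)
    (I : Finset ℕ) :
    MB ((∏ i ∈ I, (C (pp σ D i) * X ^ i)) * (∏ i ∈ PS D \ I, YY σ D i) * R) (WW σ D I) := by
  have h2 : MB (∏ i ∈ I, (C (pp σ D i) * X ^ i)) (∏ i ∈ I, pp σ D i) :=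
    MB.prod _ _ _ fun i _ => MB.mono_X _ (pp_nonneg hσ D i) i
  have h3 : MB (∏ i ∈ PS D \ I, YY σ D i) (∏ i ∈ PS D \ I, (1 - pp σ D i)) :=
    MB.prod _ _ _ fun i hi => YY_MB hσ hD (by
      have := (mem_sdiff.1 hi).1
      rw [PS, mem_Ioc] at this; omega)
  have := (h2.mul h3).mul hR
  simpa [WW] using this

/-- a coefficient of a product with a bounded second factor -/
lemma supJ_conv (f g : PowerSeries ℝ) (A B : ℝ) (hf : MB f A) (hB : 0 ≤ B)
    (hg : ∀ k, coeff k g ≤ B) (m : ℕ) : coeff m (f * g) ≤ A * B := by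
  rw [coeff_mul, Finset.Nat.sum_antidiagonal_eq_sum_range_succ_mk]
  calc ∑ k ∈ range m.succ, coeff k f * coeff (m - k) g
      ≤ ∑ k ∈ range m.succ, coeff k f * B :=
        Finset.sum_le_sum fun k _ => mul_le_mul_of_nonneg_left (hg _) (hf.1 k)
    _ = (∑ k ∈ range m.succ, coeff k f) * B := (Finset.sum_mul _ _ _).symm
    _ ≤ A * B := mul_le_mul_of_nonneg_right (hf.2 _) hB

/-- the analytic core -/
lemma supJ_core (h2 : S_beta1) (s1 s2 : ℝ) (hs1 : 0 < s1) (hs2 : 0 < s2) :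
    ∃ C0 : ℝ, 0 < C0 ∧ ∀ (D : ℕ) (σ : ℝ), 1 ≤ D → 0 < σ → s1 ≤ σ * D → σ * (3 * D) ≤ s2 →
      ∀ R : PowerSeries ℝ, MB R 1 → ∀ m : ℕ,
        coeff m (gg σ 1 * R * ∏ i ∈ PS D, (gg σ i * gg σ (i + D))) ≤
          C0 / ((D : ℝ) * Real.sqrt D) := by
  classical
  obtain ⟨C2, hC2, HB⟩ := h2 s1 s2 hs1 hs2
  set p0 : ℝ := (1 - Real.exp (-(2 * s1))) ^ 2 * Real.exp (-(2 * s2)) with hp0
  have he1 : Real.exp (-(2 * s1)) < 1 := by rw [Real.exp_lt_one_iff]; linarith
  have he1' := Real.exp_pos (-(2 * s1))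
  have he2 : Real.exp (-(2 * s2)) < 1 := by rw [Real.exp_lt_one_iff]; linarith
  have he2' := Real.exp_pos (-(2 * s2))
  have hp0pos : 0 < p0 := by
    have : 0 < 1 - Real.exp (-(2 * s1)) := by linarith
    positivity
  set c : ℝ := p0 / 4 with hc
  have hc0 : 0 < c := by positivity
  refine ⟨C2 * (1 / Real.sqrt c + 1 / c), by positivity, ?_⟩
  intro D σ hD1 hσ hs1D hs2D R hR m
  have hDpos : (0 : ℝ) < D := by exact_mod_cast hD1
  have hD1r : (1 : ℝ) ≤ D := by exact_mod_cast hD1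
  have hsc : 0 < Real.sqrt c := Real.sqrt_pos.mpr hc0
  have hsD : 0 < Real.sqrt D := Real.sqrt_pos.mpr hDpos
  have hpi : ∀ i ∈ PS D, p0 ≤ pp σ D i := by
    intro i hi
    rw [PS, mem_Ioc] at hi
    have hA : rr σ i ≤ Real.exp (-(2 * s1)) := by
      refine (rr_anti hσ hi.1.le).trans ?_
      unfold rr
      apply Real.exp_le_exp.2
      linarith
    have hB : rr σ (i + D) ≤ Real.exp (-(2 * s1)) := (rr_anti hσ (Nat.le_add_right _ _)).trans hA
    have hC : Real.exp (-(2 * s2)) ≤ rr σ i := by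
      have : rr σ (3 * D) ≤ rr σ i := rr_anti hσ (by omega)
      refine le_trans ?_ this
      unfold rr
      apply Real.exp_le_exp.2
      push_cast
      linarith
    have hE := rr_pos σ (i + D)
    rw [hp0, pp]
    apply mul_le_mul
    · rw [sq]
      apply mul_le_mul <;> linarith
    · linarith
    · exact he2'.le
    · apply mul_nonneg <;> linarith
  have hW : ∀ I ∈ (PS D).powerset, 0 ≤ WW σ D I := fun I _ => (supJ_MB hσ hD1 R hR I).nonneg
  have hsum1 : ∑ I ∈ (PS D).powerset, WW σ D I = 1 := by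
    have := Finset.prod_add (fun i => pp σ D i) (fun i => 1 - pp σ D i) (PS D)
    unfold WW
    rw [← this]
    simp
  have hb : ∀ n t : ℕ, beta D σ n t ≤ C2 / (D * Real.sqrt ((n : ℝ) + 1)) := by
    refine HB D σ hD1 hσ hs1D ?_
    have : σ * D ≤ σ * (3 * D) := mul_le_mul_of_nonneg_left (by linarith) hσ.le
    linarith
  set K : ℝ := Real.exp (c * D * Real.log 2) with hK
  have hKpos : 0 < K := Real.exp_pos _
  -- the pointwise bound
  have hpt : ∀ n : ℕ, 1 / Real.sqrt ((n : ℝ) + 1) ≤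
      1 / (Real.sqrt c * Real.sqrt D) + K * (1 / 2 : ℝ) ^ n := by
    intro n
    have hn0 : (0 : ℝ) ≤ n := Nat.cast_nonneg n
    rcases lt_or_ge (n : ℝ) (c * D) with hn | hn
    · have h1 : (1 / 2 : ℝ) ^ n = Real.exp (-(n * Real.log 2)) := by
        rw [one_div, inv_pow, Real.exp_neg]
        congr 1
        rw [mul_comm, Real.exp_mul, Real.exp_log (by norm_num), Real.rpow_natCast]
      have h2 := Real.log_nonneg (show (1 : ℝ) ≤ 2 by norm_num)
      have h3 : 1 ≤ K * (1 / 2 : ℝ) ^ n := by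
        rw [h1, hK, ← Real.exp_add]
        apply Real.one_le_exp
        nlinarith
      have h4 : 1 / Real.sqrt ((n : ℝ) + 1) ≤ 1 := by
        rw [div_le_one (by positivity), Real.one_le_sqrt]
        linarith
      have h5 : 0 ≤ 1 / (Real.sqrt c * Real.sqrt D) := by positivity
      linarith
    · have h1 : 1 / Real.sqrt ((n : ℝ) + 1) ≤ 1 / (Real.sqrt c * Real.sqrt D) := by
        refine one_div_le_one_div_of_le (by positivity) ?_
        rw [← Real.sqrt_mul hc0.le]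
        exact Real.sqrt_le_sqrt (by linarith)
      have h2 : 0 ≤ K * (1 / 2 : ℝ) ^ n := by positivity
      linarith
  have h3 : ∑ I ∈ (PS D).powerset, (1 / 2 : ℝ) ^ I.card * WW σ D I =
      ∏ i ∈ PS D, (1 / 2 * pp σ D i + (1 - pp σ D i)) := by
    rw [Finset.prod_add]
    apply Finset.sum_congr rfl
    intro I _
    rw [Finset.prod_mul_distrib, Finset.prod_const, WW]
    ring
  have h4 : ∏ i ∈ PS D, (1 / 2 * pp σ D i + (1 - pp σ D i)) ≤ Real.exp (-(p0 / 2 * D)) := by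
    have h5 : ∀ i ∈ PS D, 1 / 2 * pp σ D i + (1 - pp σ D i) ≤ Real.exp (-(p0 / 2)) := by
      intro i hi
      have h6 := hpi i hi
      have h7 := Real.add_one_le_exp (-(p0 / 2))
      linarith
    have h8 : ∀ i ∈ PS D, 0 ≤ 1 / 2 * pp σ D i + (1 - pp σ D i) := by
      intro i hi
      have h9 := (YY_MB hσ hD1 (i := i) (by rw [PS, mem_Ioc] at hi; omega)).nonneg
      have h10 := pp_nonneg hσ D i
      linarith
    refine (Finset.prod_le_prod h8 h5).trans ?_
    rw [Finset.prod_const, card_PS, ← Real.exp_nat_mul]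
    apply le_of_eq
    congr 1
    ring
  have hKe : K * ∏ i ∈ PS D, (1 / 2 * pp σ D i + (1 - pp σ D i)) ≤ 1 / (c * Real.sqrt D) := by
    calc K * ∏ i ∈ PS D, (1 / 2 * pp σ D i + (1 - pp σ D i))
        ≤ K * Real.exp (-(p0 / 2 * D)) := mul_le_mul_of_nonneg_left h4 hKpos.le
      _ = Real.exp (c * D * Real.log 2 + -(p0 / 2 * D)) := by rw [hK, ← Real.exp_add]
      _ ≤ Real.exp (-(c * D)) := by
          apply Real.exp_le_exp.2
          have hl : Real.log 2 ≤ 1 := by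
            have := Real.log_two_lt_d9; linarith
          have h11 : c * D * Real.log 2 ≤ c * D * 1 :=
            mul_le_mul_of_nonneg_left hl (by positivity)
          rw [hc] at h11 ⊢
          nlinarith
      _ ≤ 1 / (c * Real.sqrt D) := by
          rw [Real.exp_neg, ← one_div]
          refine one_div_le_one_div_of_le (by positivity) ?_
          have h4 : c * (D : ℝ) ≤ Real.exp (c * (D : ℝ)) := by
            have := Real.add_one_le_exp (c * (D : ℝ))
            linarith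
          refine le_trans ?_ h4
          refine mul_le_mul_of_nonneg_left ?_ hc0.le
          rw [Real.sqrt_le_left hDpos.le]
          nlinarith
  rw [supJ_total, map_sum]
  calc ∑ I ∈ (PS D).powerset, coeff m (((∏ i ∈ I, (C (pp σ D i) * X ^ i)) *
          (∏ i ∈ PS D \ I, YY σ D i) * R) * (TT σ D ^ I.card * gg σ 1))
      ≤ ∑ I ∈ (PS D).powerset, WW σ D I * (C2 / (D * Real.sqrt ((I.card : ℝ) + 1))) := by
        refine Finset.sum_le_sum fun I _ => ?_
        refine supJ_conv _ _ _ _ (supJ_MB hσ hD1 R hR I) (by positivity) (fun k => ?_) m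
        rw [coeff_beta]
        exact hb _ _
    _ ≤ ∑ I ∈ (PS D).powerset, (C2 / D) * (WW σ D I * (1 / (Real.sqrt c * Real.sqrt D)) +
          K * ((1 / 2 : ℝ) ^ I.card * WW σ D I)) := by
        refine Finset.sum_le_sum fun I hI => ?_
        have e1 : WW σ D I * (C2 / (D * Real.sqrt ((I.card : ℝ) + 1))) =
            (C2 / D) * (WW σ D I * (1 / Real.sqrt ((I.card : ℝ) + 1))) := by
          field_simp
        rw [e1]
        refine mul_le_mul_of_nonneg_left ?_ (by positivity)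
        have e2 := mul_le_mul_of_nonneg_left (hpt I.card) (hW I hI)
        refine e2.trans (le_of_eq ?_)
        ring
    _ = (C2 / D) * (1 / (Real.sqrt c * Real.sqrt D) +
          K * ∏ i ∈ PS D, (1 / 2 * pp σ D i + (1 - pp σ D i))) := by
        rw [← Finset.mul_sum, Finset.sum_add_distrib, ← Finset.sum_mul, hsum1, one_mul,
          ← Finset.mul_sum, h3]
    _ ≤ (C2 / D) * (1 / (Real.sqrt c * Real.sqrt D) + 1 / (c * Real.sqrt D)) := by
        refine mul_le_mul_of_nonneg_left ?_ (by positivity)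
        linarith
    _ = C2 * (1 / Real.sqrt c + 1 / c) / ((D : ℝ) * Real.sqrt D) := by
        field_simp

theorem gp_supj (h1 : S_beta1) (h2 : S_L3) : Pool.Agent.H174.GP.S_supJ := by
  classical
  intro s1 s2 hs1 hs2
  obtain ⟨C0, hC0, H⟩ := supJ_core h1 (s1 / 8) (s2 / 2) (by positivity) (by positivity)
  refine ⟨8 * C0, by positivity, 12, fun d hd σ hσ hσ1 hσ2 L hL1 hLd t => ?_⟩
  have hdpos : (0 : ℝ) < d := by exact_mod_cast (by omega : 0 < d)
  have hexp : (d : ℝ) ^ (-(3 / 2) : ℝ) = 1 / ((d : ℝ) * Real.sqrt d) := by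
    rw [Real.rpow_neg hdpos.le, one_div, Real.sqrt_eq_rpow]
    congr 1
    have e1 : (3 / 2 : ℝ) = 1 + 1 / 2 := by norm_num
    rw [e1, Real.rpow_add hdpos, Real.rpow_one]
  have h1n : 1 ∉ Finset.Ioc L d := by
    rw [mem_Ioc]; omega
  have hcast : ∀ ω : ℕ → ℝ, (gs σ ω 1 : ℤ) + ∑ j ∈ Finset.Ioc L d, (j : ℤ) * (gs σ ω j : ℤ) =
      ((∑ j ∈ insert 1 (Finset.Ioc L d), j * gs σ ω j : ℕ) : ℤ) := by
    intro ω
    rw [Finset.sum_insert h1n]
    push_cast
    ring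
  rcases lt_or_ge t 0 with ht | ht
  · have he : {ω : ℕ → ℝ | (gs σ ω 1 : ℤ) + ∑ j ∈ Finset.Ioc L d, (j : ℤ) * (gs σ ω j : ℤ) = t} = ∅ := by
      refine Set.eq_empty_iff_forall_notMem.2 fun ω h => ?_
      have h' : (gs σ ω 1 : ℤ) + ∑ j ∈ Finset.Ioc L d, (j : ℤ) * (gs σ ω j : ℤ) = t := h
      rw [hcast] at h'
      have := Int.natCast_nonneg (∑ j ∈ insert 1 (Finset.Ioc L d), j * gs σ ω j)
      omega
    rw [he, measureReal_empty]
    positivity
  obtain ⟨M, rfl⟩ := Int.eq_ofNat_of_zero_le ht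
  have hset : {ω : ℕ → ℝ | (gs σ ω 1 : ℤ) + ∑ j ∈ Finset.Ioc L d, (j : ℤ) * (gs σ ω j : ℤ) = (M : ℤ)} =
      {ω : ℕ → ℝ | ∑ j ∈ insert 1 (Finset.Ioc L d), j * gs σ ω j = M} := by
    ext ω
    show (gs σ ω 1 : ℤ) + ∑ j ∈ Finset.Ioc L d, (j : ℤ) * (gs σ ω j : ℤ) = (M : ℤ) ↔
      ∑ j ∈ insert 1 (Finset.Ioc L d), j * gs σ ω j = M
    rw [hcast]
    exact Int.natCast_inj
  rw [hset]
  refine (supJ_law h2 hσ _ (fun j hj => ?_) M).trans ?_
  · rw [Finset.mem_insert, mem_Ioc] at hj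
    omega
  obtain ⟨D, hD⟩ : ∃ D : ℕ, D = d / 3 := ⟨_, rfl⟩
  have hD1 : 1 ≤ D := by omega
  have h3D : 3 * D ≤ d := by omega
  have hDd : d ≤ 4 * D := by omega
  have hLD : L ≤ D := by omega
  have hDr : (d : ℝ) / 4 ≤ D := by
    have : (d : ℝ) ≤ 4 * D := by exact_mod_cast hDd
    linarith
  have hDr' : 3 * (D : ℝ) ≤ d := by exact_mod_cast h3D
  have hDpos : (0 : ℝ) < D := by exact_mod_cast hD1
  have hprod : ∏ j ∈ insert 1 (Finset.Ioc L d), gg (σ / 2) j =
      gg (σ / 2) 1 * ((∏ j ∈ Ioc L D, gg (σ / 2) j) * ∏ j ∈ Ioc (3 * D) d, gg (σ / 2) j) *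
        ∏ i ∈ PS D, (gg (σ / 2) i * gg (σ / 2) (i + D)) := by
    rw [Finset.prod_insert h1n,
      ← Finset.prod_Ioc_consecutive _ hLD (by omega : D ≤ d),
      ← Finset.prod_Ioc_consecutive _ (by omega : D ≤ 2 * D) (by omega : 2 * D ≤ d),
      ← Finset.prod_Ioc_consecutive _ (by omega : 2 * D ≤ 3 * D) h3D]
    have e3 : ∏ j ∈ Ioc (2 * D) (3 * D), gg (σ / 2) j =
        ∏ i ∈ Ioc D (2 * D), gg (σ / 2) (i + D) := by
      symm
      apply Finset.prod_nbij' (fun i => i + D) (fun j => j - D)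
      · intro i hi; rw [mem_Ioc] at hi ⊢; omega
      · intro i hi; rw [mem_Ioc] at hi ⊢; omega
      · intro i _; exact Nat.add_sub_cancel i D
      · intro j hj
        exact Nat.sub_add_cancel (by rw [mem_Ioc] at hj; omega)
      · intro i _; rfl
    rw [e3, PS, Finset.prod_mul_distrib]
    ring
  rw [hprod]
  have hσ' : 0 < σ / 2 := by positivity
  have hR : MB ((∏ j ∈ Ioc L D, gg (σ / 2) j) * ∏ j ∈ Ioc (3 * D) d, gg (σ / 2) j) 1 := by
    have e1 : MB (∏ j ∈ Ioc L D, gg (σ / 2) j) (∏ _j ∈ Ioc L D, (1 : ℝ)) :=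
      MB.prod _ _ _ fun i hi => gg_MB hσ' (by rw [mem_Ioc] at hi; omega)
    have e2 : MB (∏ j ∈ Ioc (3 * D) d, gg (σ / 2) j) (∏ _j ∈ Ioc (3 * D) d, (1 : ℝ)) :=
      MB.prod _ _ _ fun i hi => gg_MB hσ' (by rw [mem_Ioc] at hi; omega)
    have := e1.mul e2
    simpa using this
  refine (H D (σ / 2) hD1 hσ' ?_ ?_ _ hR M).trans ?_
  · have : σ * (d / 4) ≤ σ * D := mul_le_mul_of_nonneg_left hDr hσ.le
    linarith
  · have : σ * (3 * D) ≤ σ * d := mul_le_mul_of_nonneg_left hDr' hσ.le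
    linarith
  have hF : 1 / ((D : ℝ) * Real.sqrt D) ≤ 8 * (1 / ((d : ℝ) * Real.sqrt d)) := by
    have h5 : Real.sqrt ((d : ℝ) / 4) = Real.sqrt d / 2 := by
      rw [Real.sqrt_div' _ (by norm_num : (0 : ℝ) ≤ 4)]
      congr 1
      rw [show (4 : ℝ) = 2 ^ 2 by norm_num, Real.sqrt_sq (by norm_num)]
    have h6 : Real.sqrt d / 2 ≤ Real.sqrt D := by
      rw [← h5]
      exact Real.sqrt_le_sqrt hDr
    have hsd : 0 < Real.sqrt (d : ℝ) := Real.sqrt_pos.mpr hdpos
    have h7 : (d : ℝ) / 4 * (Real.sqrt d / 2) ≤ D * Real.sqrt D :=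
      mul_le_mul hDr h6 (by positivity) hDpos.le
    have h8 : 1 / ((D : ℝ) * Real.sqrt D) ≤ 1 / ((d : ℝ) / 4 * (Real.sqrt d / 2)) :=
      one_div_le_one_div_of_le (by positivity) h7
    refine h8.trans (le_of_eq ?_)
    field_simp
    norm_num
  rw [hexp]
  calc C0 / ((D : ℝ) * Real.sqrt D) = C0 * (1 / ((D : ℝ) * Real.sqrt D)) := by ring
    _ ≤ C0 * (8 * (1 / ((d : ℝ) * Real.sqrt d))) := mul_le_mul_of_nonneg_left hF hC0.le
    _ = 8 * C0 * (1 / ((d : ℝ) * Real.sqrt d)) := by ring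

end Pool.Agent.H977.GP174
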